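import Pool.Agent.Y265.HY.DC4

/-!
# `f²` decouples from bounded functions of slower eigenfunctions (MP_a28cf0_nt)

The plane is `ℂ`, with the upper half plane `HH` and `dμ = dx dy / y²`. `dx f z`, `dy f z` are the
partial derivatives `fderiv ℝ f z 1`, `fderiv ℝ f z I`; `TF U φ` says that `φ : ℂ → ℝ` is smooth
with compact support contained in `U`.

Let `f` have spectral parameter `t → ∞` and satisfy microlocal quantum unique ergodicity (a theorem
for Hecke-Maass cusp forms), and let `g_i` be eigenfunctions with spectral parameters at most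
`t^((1-δ)/3)`, locally bounded in `L²`. If the fourth moment of `f` alone is asymptotically Gaussian
then `∫ ψ f² Φ_1(g_1) ⋯ Φ_m(g_m) dμ - ∫ ψ Φ_1(g_1) ⋯ Φ_m(g_m) dμ → 0` for all bounded smooth
functions `Φ_i` with bounded derivatives: given the slower forms, `f²` has conditional mean `1`. In
general the difference is bounded by the excess of the fourth moment.
-/

set_option autoImplicit false
open MeasureTheory Filter Topology Complex
open scoped ContDiff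

namespace Pool.Agent.Results.MP_a28cf0_nt.BoundedSlowFunctions

open Pool.Agent.W745.RW (TF dx dy lap)

/-- the open upper half plane -/
def HH : Set ℂ := {z | 0 < z.im}

/-- the eigenvalue `1/4 + t²` -/
noncomputable def ev (t : ℝ) : ℝ := 1 / 4 + t ^ 2

/-- `f` is a smooth real solution of `-y² (∂x² + ∂y²) f = (1/4 + t²) f` on the upper half plane -/
def Eig (t : ℝ) (f : ℂ → ℝ) : Prop :=
  ContDiffOn ℝ ∞ f HH ∧ ∀ z ∈ HH, -(z.im ^ 2 * (dx (dx f) z + dy (dy f) z)) = ev t * f z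

/-- the operator `f ↦ lam^{-1/2} y (∂x f - i ∂y f)` -/
noncomputable def RO (lam : ℝ) (f : ℂ → ℂ) (z : ℂ) : ℂ :=
  ((z.im / √lam : ℝ) : ℂ) * (dx f z - I * dy f z)

/-- quantum unique ergodicity in microlocal form: `∫ φ f (RO^k f) dμ → ∫ φ dμ` for `k = 0`, and
`→ 0` for `k ≥ 1` -/
def QUE (t : ℕ → ℝ) (f : ℕ → ℂ → ℝ) : Prop :=
  ∀ φ, TF HH φ → ∀ k : ℕ, Tendsto (fun n => ∫ z, ((φ z / z.im ^ 2 : ℝ) : ℂ) *
    ((f n z : ℂ) * (RO (ev (t n)))^[k] (fun w => (f n w : ℂ)) z)) atTop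
    (𝓝 (if k = 0 then ((∫ z, φ z / z.im ^ 2 : ℝ) : ℂ) else 0))

/-- the integral `∫ ψ F dμ` -/
noncomputable def II (ψ F : ℂ → ℝ) : ℝ := ∫ z, ψ z * F z / z.im ^ 2

/-- the excess `∫ ψ f⁴ dμ - 3 ∫ ψ dμ` of the fourth moment -/
noncomputable def ex (ψ f : ℂ → ℝ) : ℝ :=
  (∫ z, ψ z * f z ^ 4 / z.im ^ 2) - 3 * ∫ z, ψ z / z.im ^ 2

lemma ev_pos (t : ℝ) : 0 < ev t := by unfold ev; positivity

lemma HHo : IsOpen HH := isOpen_lt continuous_const continuous_im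

lemma ev_lim {t : ℕ → ℝ} (ht : Tendsto t atTop atTop) :
    Tendsto (fun n => ev (t n)) atTop atTop :=
  tendsto_atTop_add_const_left _ _ ((tendsto_pow_atTop two_ne_zero).comp ht)

lemma cmp_bd {K : Set ℂ} (hK : IsCompact K) (hKH : K ⊆ HH) : ∃ C : ℝ, 0 < C ∧
    ∀ F : ℂ → ℝ, ContinuousOn F K → (∀ z, 0 ≤ F z) →
      ∫ z in K, F z ≤ C * ∫ z in K, F z / z.im ^ 2 := by
  have him : ContDiff ℝ ∞ (fun z : ℂ => z.im) := imCLM.contDiff
  obtain ⟨C, hC⟩ := hK.exists_bound_of_continuousOn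
    ((him.continuous.pow 2).continuousOn (s := K))
  refine ⟨|C| + 1, by positivity, fun F hF hF0 => ?_⟩
  have i1 : IntegrableOn F K := hF.integrableOn_compact hK
  have i2 : IntegrableOn (fun z => (|C| + 1) * (F z / z.im ^ 2)) K := by
    refine ContinuousOn.integrableOn_compact hK ?_
    refine continuousOn_const.mul (hF.div (him.continuous.pow 2).continuousOn fun z hz => ?_)
    have : 0 < z.im := hKH hz
    positivity
  rw [← integral_const_mul]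
  refine setIntegral_mono_on i1 i2 hK.measurableSet fun z hz => ?_
  have h3 : 0 < z.im := hKH hz
  have h4 : z.im ^ 2 ≤ |C| + 1 := by
    have h7 : ‖z.im ^ 2‖ ≤ C := hC z hz
    rw [Real.norm_eq_abs, abs_of_nonneg (pow_nonneg h3.le 2)] at h7
    linarith [le_abs_self C]
  rw [mul_div_assoc', le_div_iff₀ (pow_pos h3 2), mul_comm]
  exact mul_le_mul_of_nonneg_right h4 (hF0 z)

lemma data {t : ℕ → ℝ} (ht : Tendsto t atTop atTop)
    {f : ℕ → ℂ → ℝ} (hf : ∀ n, Eig (t n) (f n)) (hqe : QUE t f) :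
    Pool.Agent.Y265.HY.JC.JD Pool.Agent.TH421.DF.HP (fun n => ev (t n)) (fun n => ev (t n)) f
      (fun _ _ => 0) where
  op := HHo
  hU := fun z hz => hz
  lp := fun n => ev_pos _
  ll := ev_lim ht
  mp := fun n => ev_pos _
  ml := ev_lim ht
  us := fun n => (hf n).1
  gs := fun n => contDiffOn_const
  ue := fun n z hz => by
    have h1 := (hf n).2 z hz
    have h2 : lap (f n) z = dx (dx (f n)) z + dy (dy (f n)) z := rfl
    rw [h2]; linarith
  ge := fun n z hz => by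
    have e0 : lap (fun _ : ℂ => (0 : ℝ)) z =
      fderiv ℝ (fun w => fderiv ℝ (fun _ : ℂ => (0 : ℝ)) w 1) z 1 +
      fderiv ℝ (fun w => fderiv ℝ (fun _ : ℂ => (0 : ℝ)) w I) z I := rfl
    rw [e0]; simp
  gb := fun K hK hKH => ⟨0, Eventually.of_forall fun n => by simp⟩
  qe := hqe

lemma tf {ψ : ℂ → ℝ} (hψ : TF HH ψ) : TF HH (fun z => ψ z / z.im ^ 2) := by
  have sy : ContDiffOn ℝ ∞ (fun z : ℂ => (z.im ^ 2)⁻¹) HH := by
    refine ContDiffOn.inv ((imCLM.contDiff.pow 2).contDiffOn) fun z hz => ?_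
    have : 0 < z.im := hz
    exact pow_ne_zero 2 this.ne'
  exact Pool.Agent.TH294.RS.TF.mulc HHo hψ sy

open Pool.Agent.TH421.DF Pool.Agent.TH294.RS Pool.Agent.TH294.RG

lemma lbc {f : ℕ → ℂ → ℝ} (hs : ∀ n, ContDiffOn ℝ ∞ (f n) HH)
    (hf : ∀ K : Set ℂ, IsCompact K → K ⊆ HH →
      ∃ C : ℝ, ∀ᶠ n in atTop, ∫ z in K, f n z ^ 2 / z.im ^ 2 ≤ C) :
    LB HP 2 (fun n z => (f n z : ℂ)) := by
  refine ⟨fun n => Complex.ofRealCLM.contDiff.comp_contDiffOn (hs n), fun K hK hKB => ?_⟩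
  obtain ⟨C, hC⟩ := hf K hK hKB
  obtain ⟨C', hC'0, hC'⟩ := cmp_bd hK hKB
  refine ⟨C' * C, hC.mono fun n hn => ?_⟩
  have h1 := (hC' (fun z => f n z ^ 2) (((hs n).continuousOn.mono hKB).pow 2)
      (fun z => by positivity)).trans (mul_le_mul_of_nonneg_left hn hC'0.le)
  simpa only [Complex.norm_real, Real.norm_eq_abs, sq_abs] using h1

lemma eigc {r : ℝ} {f : ℂ → ℝ} (hf : Eig r f) {z : ℂ} (hz : z ∈ HP) :
    (z.im : ℂ) ^ 2 * Pool.Agent.W745.RW.lap (fun w => (f w : ℂ)) z =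
      -((ev r : ℂ) * (f z : ℂ)) := by
  rw [lap_re HPo hf.1 hz]
  have h1 := hf.2 z hz
  have h2 : z.im ^ 2 * Pool.Agent.W745.RW.lap f z = -(ev r * f z) := by
    have : dx (dx f) z + dy (dy f) z = Pool.Agent.W745.RW.lap f z := rfl
    rw [← this]; linarith
  exact_mod_cast h2

lemma eigk {h : ℕ → ℝ} {r : ℕ → ℝ} {f : ℕ → ℂ → ℝ} (hf : ∀ n, Eig (r n) (f n)) (n : ℕ) {z : ℂ}
    (hz : z ∈ HP) : (z.im : ℂ) ^ 2 * Pool.Agent.TH294.RS.hL h (fun n z => (f n z : ℂ)) n z =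
      -(((h n ^ 2 * ev (r n) : ℝ) : ℂ) * (f n z : ℂ)) := by
  have h1 := eigc (hf n) hz
  simp only [Pool.Agent.TH294.RS.hL]
  push_cast
  linear_combination ((h n : ℂ) ^ 2) * h1

lemma mk_eig {h : ℕ → ℝ} (hp : ∀ n, 0 < h n) (h1 : ∀ n, h n ≤ 1) (hh : Tendsto h atTop (𝓝 0))
    {r : ℕ → ℝ} {f : ℕ → ℂ → ℝ} (hf : ∀ n, Eig (r n) (f n))
    (hb : ∀ K : Set ℂ, IsCompact K → K ⊆ HH →
      ∃ C : ℝ, ∀ᶠ n in atTop, ∫ z in K, f n z ^ 2 / z.im ^ 2 ≤ C)
    (hr : ∀ᶠ n in atTop, h n * |r n| ≤ 1) (k : ℕ) : MK2 HP h k (fun n z => (f n z : ℂ)) := by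
  refine mk_sol HPo hp hh (lbc (fun n => (hf n).1) hb) iy_cd
    (c := fun n => h n ^ 2 * ev (r n)) (M := 2) ?_ ?_ k
  · filter_upwards [hr] with n hn
    have h4 : h n ^ 2 * ev (r n) = h n ^ 2 * (1 / 4) + (h n * |r n|) ^ 2 := by
      rw [mul_pow, sq_abs, ev]; ring
    show |h n ^ 2 * ev (r n)| ≤ 2
    have h5 : h n ^ 2 ≤ 1 := pow_le_one₀ (hp n).le (h1 n)
    have h6 : (h n * |r n|) ^ 2 ≤ 1 := pow_le_one₀ (mul_nonneg (hp n).le (abs_nonneg _)) hn
    rw [h4, abs_of_nonneg (by positivity)]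
    linarith
  · intro n z hz
    have h1 := eigk (h := h) hf n hz
    have h2 : (z.im : ℂ) ≠ 0 := by exact_mod_cast (ne_of_gt (hz : 0 < z.im))
    have h3 : Pool.Agent.TH294.RS.hL h (fun n z => (f n z : ℂ)) n z =
        ((z.im : ℂ) ^ 2)⁻¹ * ((z.im : ℂ) ^ 2 *
          Pool.Agent.TH294.RS.hL h (fun n z => (f n z : ℂ)) n z) := by
      rw [← mul_assoc, inv_mul_cancel₀ (pow_ne_zero 2 h2), one_mul]
    rw [h3, h1]
    ring

/-- **Result.** Let `m` and `δ > 0` be arbitrary. Let `f n` be real eigenfunctions of the hyperbolic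
Laplacian on the upper half plane with spectral parameters `t n → ∞` that satisfy microlocal quantum
unique ergodicity, and `g i n` (`i < m`) real eigenfunctions with spectral parameters
`|s i n| ≤ (t n)^((1 - δ)/3)`, bounded in `L²(K, dμ)` for every compact `K`. Let `Φ i` be smooth real
functions on the line all of whose derivatives (of order `≥ 0`) are bounded. Put
`G n = ∏ i, Φ i (g i n)`. Let `ψ`, `χ` be test functions with `|ψ| ≤ χ` (for instance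
`χ = ψ ≥ 0`).

1. For every `ε > 0`, eventually `|∫ ψ (f² - 1) G dμ|` is at most
`√((2/3 (∫ χ f⁴ dμ - 3 ∫ χ dμ) + ε) ∫ χ G² dμ) + ε`.
2. If `∫ χ f⁴ dμ → 3 ∫ χ dμ`, then `∫ ψ f² G dμ - ∫ ψ G dμ → 0`. -/
theorem result (m : ℕ) (δ : ℝ) (hδ : 0 < δ) (t : ℕ → ℝ) (f : ℕ → ℂ → ℝ)
    (s : Fin m → ℕ → ℝ) (g : Fin m → ℕ → ℂ → ℝ)
    (ht : Tendsto t atTop atTop) (hf : ∀ n, Eig (t n) (f n)) (hqe : QUE t f)
    (hg : ∀ i n, Eig (s i n) (g i n)) (hst : ∀ i, ∀ᶠ n in atTop, |s i n| ≤ t n ^ ((1 - δ) / 3))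
    (hgb : ∀ i, ∀ K : Set ℂ, IsCompact K → K ⊆ HH →
      ∃ C : ℝ, ∀ᶠ n in atTop, ∫ z in K, g i n z ^ 2 / z.im ^ 2 ≤ C)
    (Φ : Fin m → ℝ → ℝ) (hΦ : ∀ i, ContDiff ℝ ∞ (Φ i))
    (hΦb : ∀ i k, ∃ C : ℝ, ∀ x, |iteratedDeriv k (Φ i) x| ≤ C)
    (ψ χ : ℂ → ℝ) (hψ : TF HH ψ) (hχ : TF HH χ) (hψχ : ∀ z, |ψ z| ≤ χ z) :
    (∀ ε : ℝ, 0 < ε → ∀ᶠ n in atTop,
      |II ψ (fun z => (f n z ^ 2 - 1) * ∏ i, Φ i (g i n z))| ≤
        √((2 / 3 * ex χ (f n) + ε) * II χ (fun z => (∏ i, Φ i (g i n z)) ^ 2)) + ε) ∧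
    (Tendsto (fun n => ex χ (f n)) atTop (𝓝 0) →
      Tendsto (fun n => II ψ (fun z => f n z ^ 2 * ∏ i, Φ i (g i n z)) -
        II ψ (fun z => ∏ i, Φ i (g i n z))) atTop (𝓝 0)) := by
  obtain ⟨d, hd⟩ : ∃ d : ℝ, d = min δ (1 / 2) := ⟨_, rfl⟩
  have d0 : 0 < d := by rw [hd]; positivity
  have d1 : d ≤ δ := by rw [hd]; exact min_le_left _ _
  have d2 : d ≤ 1 / 2 := by rw [hd]; exact min_le_right _ _
  obtain ⟨τ, hτ⟩ : ∃ τ : ℕ → ℝ, ∀ n, τ n = max (t n) 1 := ⟨_, fun _ => rfl⟩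
  have τ1 : ∀ n, 1 ≤ τ n := fun n => by rw [hτ]; exact le_max_right _ _
  have τ0 : ∀ n, 0 < τ n := fun n => lt_of_lt_of_le one_pos (τ1 n)
  have τt : ∀ᶠ n in atTop, τ n = t n := by
    filter_upwards [ht.eventually_ge_atTop 1] with n hn
    rw [hτ, max_eq_left hn]
  have τl : Tendsto τ atTop atTop :=
    tendsto_atTop_mono (fun n => by rw [hτ]; exact le_max_left _ _) ht
  -- the slow scale
  obtain ⟨κ, hκ'⟩ : ∃ κ : ℕ → ℝ, ∀ n, κ n = τ n ^ (-((1 - d) / 3)) := ⟨_, fun _ => rfl⟩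
  have kp : ∀ n, 0 < κ n := fun n => by rw [hκ']; exact Real.rpow_pos_of_pos (τ0 n) _
  have kle : ∀ n, κ n ≤ 1 := fun n => by
    rw [hκ']; exact Real.rpow_le_one_of_one_le_of_nonpos (τ1 n) (by linarith)
  have kl : Tendsto κ atTop (𝓝 0) := by
    have := (tendsto_rpow_neg_atTop (y := (1 - d) / 3) (by linarith)).comp τl
    exact this.congr fun n => (hκ' n).symm
  have hSK : ∀ i j, SK HP κ 2 j (fun n z => (g i n z : ℂ)) := by
    intro i j
    refine mk_sk HPo kp kl (mk_eig kp kle kl (hg i) (hgb i) ?_ (j + 2))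
    filter_upwards [hst i, τt] with n hn hτn
    have e1 : |s i n| ≤ τ n ^ ((1 - d) / 3) := by
      rw [← hτn] at hn
      exact hn.trans (Real.rpow_le_rpow_of_exponent_le (τ1 n) (by linarith))
    calc κ n * |s i n| ≤ κ n * τ n ^ ((1 - d) / 3) := mul_le_mul_of_nonneg_left e1 (kp n).le
      _ = 1 := by rw [hκ', ← Real.rpow_add (τ0 n)]; simp
  -- the scale of the functions of the slow forms
  obtain ⟨h, hhd⟩ : ∃ h : ℕ → ℝ, h = fun n => κ n ^ 3 := ⟨_, rfl⟩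
  have hh' : ∀ n, h n = τ n ^ (-(1 - d)) := fun n => by
    rw [hhd]
    show κ n ^ 3 = _
    rw [hκ', ← Real.rpow_natCast, ← Real.rpow_mul (τ0 n).le]
    congr 1
    push_cast; ring
  have hp : ∀ n, 0 < h n := fun n => by rw [hh']; exact Real.rpow_pos_of_pos (τ0 n) _
  have hh : Tendsto h atTop (𝓝 0) := by
    have := (tendsto_rpow_neg_atTop (y := 1 - d) (by linarith)).comp τl
    exact this.congr fun n => (hh' n).symm
  have hG : ∀ j, SK HP h 0 j (fun n z => ((∏ i, Φ i (g i n z) : ℝ) : ℂ)) := by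
    intro j
    have k := SK.prod HPo hp hh Finset.univ (fun _ : Fin m => 0)
      (fun i n z => ((Φ i (g i n z) : ℝ) : ℂ)) (k := j) fun i _ => by
        rw [hhd]
        exact Pool.Agent.Y265.HY.DC.comp kp kle (fun n => (hg i n).1) (hSK i) j (hΦ i) (hΦb i)
    rw [Finset.sum_const_zero] at k
    refine k.congr HPo fun n z _ => ?_
    push_cast; rfl
  obtain ⟨N, hN⟩ : ∃ N : ℕ, (1 : ℝ) / (2 * d) ≤ N := exists_nat_ge _
  have hN' : (1 : ℝ) ≤ 2 * d * N := by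
    rw [div_le_iff₀ (by positivity)] at hN; linarith
  have N0 : 0 < N := by
    rcases Nat.eq_zero_or_pos N with h0 | h0
    · rw [h0] at hN'
      simp at hN'
      linarith
    · exact h0
  have hi : ∀ i, N ≤ i → Tendsto (fun n =>
      ((Pool.Agent.Y265.HY.JC.hh (fun n => ev (t n)) n / h n) ^ 2) ^ i * (h n ^ 0)⁻¹) atTop
      (𝓝 0) := by
    intro i hiN
    have tz : Tendsto (fun n => (τ n)⁻¹) atTop (𝓝 0) := tendsto_inv_atTop_zero.comp τl
    refine squeeze_zero' (Eventually.of_forall fun n => ?_) ?_ tz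
    · have := hp n
      positivity
    filter_upwards [τt] with n hτn
    have b0 : 0 < Pool.Agent.Y265.HY.JC.hh (fun n => ev (t n)) n :=
      div_pos one_pos (Real.sqrt_pos.2 (ev_pos _))
    have b1 : Pool.Agent.Y265.HY.JC.hh (fun n => ev (t n)) n ≤ τ n ^ (-(1 : ℝ)) := by
      rw [Real.rpow_neg (τ0 n).le, Real.rpow_one]
      show 1 / √(ev (t n)) ≤ (τ n)⁻¹
      rw [one_div]
      refine inv_anti₀ (τ0 n) ?_
      refine Real.le_sqrt_of_sq_le ?_
      rw [hτn, ev]; linarith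
    have b2 : (Pool.Agent.Y265.HY.JC.hh (fun n => ev (t n)) n / h n) ≤ τ n ^ (-d) := by
      rw [div_le_iff₀ (hp n), hh', ← Real.rpow_add (τ0 n)]
      have : -d + -(1 - d) = -(1 : ℝ) := by ring
      rw [this]; exact b1
    have b3 : ((Pool.Agent.Y265.HY.JC.hh (fun n => ev (t n)) n / h n) ^ 2) ^ i ≤
        τ n ^ (-(2 * d * N)) := by
      rw [← pow_mul]
      have c1 : (Pool.Agent.Y265.HY.JC.hh (fun n => ev (t n)) n / h n) ^ (2 * i) ≤
          (τ n ^ (-d)) ^ (2 * i) := pow_le_pow_left₀ (div_pos b0 (hp n)).le b2 _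
      refine c1.trans ?_
      rw [← Real.rpow_natCast, ← Real.rpow_mul (τ0 n).le]
      refine Real.rpow_le_rpow_of_exponent_le (τ1 n) ?_
      have c2 : (N : ℝ) ≤ i := by exact_mod_cast hiN
      push_cast
      nlinarith
    calc ((Pool.Agent.Y265.HY.JC.hh (fun n => ev (t n)) n / h n) ^ 2) ^ i * (h n ^ 0)⁻¹ ≤
        τ n ^ (-(2 * d * N)) := by rw [pow_zero, inv_one, mul_one]; exact b3
      _ ≤ τ n ^ (-(1 : ℝ)) := Real.rpow_le_rpow_of_exponent_le (τ1 n) (by linarith)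
      _ = (τ n)⁻¹ := by rw [Real.rpow_neg (τ0 n).le, Real.rpow_one]
  have D := data ht hf hqe
  have sP : ∀ n, ContinuousOn (fun z => ∏ i, Φ i (g i n z)) HP := fun n =>
    continuousOn_finsetProd _ fun i _ => (hΦ i).continuous.comp_continuousOn (hg i n).1.continuousOn
  have hφχ : ∀ z : ℂ, |ψ z / z.im ^ 2| ≤ χ z / z.im ^ 2 := by
    intro z
    rw [abs_div, abs_of_nonneg (sq_nonneg z.im)]
    exact div_le_div_of_nonneg_right (hψχ z) (sq_nonneg _)
  have part1 : ∀ ε : ℝ, 0 < ε → ∀ᶠ n in atTop,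
      |II ψ (fun z => (f n z ^ 2 - 1) * ∏ i, Φ i (g i n z))| ≤
        √((2 / 3 * ex χ (f n) + ε) * II χ (fun z => (∏ i, Φ i (g i n z)) ^ 2)) + ε := by
    intro ε hε
    have k := Pool.Agent.Y265.HY.DC.dec D hp hh hG N N0 hi sP (tf hψ) (tf hχ) hφχ hε
    filter_upwards [k] with n hn
    have e1 : II ψ (fun z => (f n z ^ 2 - 1) * ∏ i, Φ i (g i n z)) =
        ∫ z, ψ z / z.im ^ 2 * ((f n z ^ 2 - 1) * ∏ i, Φ i (g i n z)) := by
      unfold II; congr 1; funext z; ring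
    have e2 : II χ (fun z => (∏ i, Φ i (g i n z)) ^ 2) =
        ∫ z, χ z / z.im ^ 2 * (∏ i, Φ i (g i n z)) ^ 2 := by
      unfold II; congr 1; funext z; ring
    have e3 : ex χ (f n) = (∫ z, χ z / z.im ^ 2 * f n z ^ 4) - 3 * ∫ z, χ z / z.im ^ 2 := by
      unfold ex; congr 2; funext z; ring
    rw [e1, e2, e3]
    exact hn
  refine ⟨part1, fun hex => ?_⟩
  obtain ⟨C, hC⟩ : ∃ C : ℝ, ∀ n, II χ (fun z => (∏ i, Φ i (g i n z)) ^ 2) ≤ C := by
    choose B hB using fun i => hΦb i 0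
    refine ⟨∫ z, χ z / z.im ^ 2 * (∏ i, |B i|) ^ 2, fun n => ?_⟩
    have e2 : II χ (fun z => (∏ i, Φ i (g i n z)) ^ 2) =
        ∫ z, χ z / z.im ^ 2 * (∏ i, Φ i (g i n z)) ^ 2 := by
      unfold II; congr 1; funext z; ring
    rw [e2]
    refine integral_mono (Pool.Agent.W311.RW.int_mul HHo (tf hχ) ((sP n).pow 2))
      (Pool.Agent.W311.RW.int_mul HHo (tf hχ) continuousOn_const) fun z => ?_
    have c0 : 0 ≤ χ z / z.im ^ 2 := (abs_nonneg _).trans (hφχ z)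
    refine mul_le_mul_of_nonneg_left ?_ c0
    rw [← sq_abs, Finset.abs_prod]
    refine pow_le_pow_left₀ (Finset.prod_nonneg fun i _ => abs_nonneg _) ?_ 2
    refine Finset.prod_le_prod (fun i _ => abs_nonneg _) fun i _ => ?_
    have := hB i (g i n z)
    rw [iteratedDeriv_zero] at this
    exact this.trans (le_abs_self _)
  rw [Metric.tendsto_atTop']
  intro ε hε
  obtain ⟨η, hη⟩ : ∃ η : ℝ, η = min (ε / 4) (ε ^ 2 / (32 * (|C| + 1))) := ⟨_, rfl⟩
  have η0 : 0 < η := by rw [hη]; positivity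
  have η1 : η ≤ ε / 4 := by rw [hη]; exact min_le_left _ _
  have η2 : η ≤ ε ^ 2 / (32 * (|C| + 1)) := by rw [hη]; exact min_le_right _ _
  have k := (part1 η η0).and (hex.eventually (gt_mem_nhds η0))
  rw [eventually_atTop] at k
  obtain ⟨n0, hn0⟩ := k
  refine ⟨n0, fun n hn => ?_⟩
  obtain ⟨p1, p3⟩ := hn0 n hn.le
  rw [dist_zero_right, Real.norm_eq_abs]
  have i1 : Integrable (fun z => ψ z * (f n z ^ 2 * ∏ i, Φ i (g i n z)) / z.im ^ 2) := by
    have := Pool.Agent.W311.RW.int_mul HHo (tf hψ)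
      (((hf n).1.continuousOn.pow 2).mul (sP n))
    refine this.congr (Eventually.of_forall fun z => ?_)
    show ψ z / z.im ^ 2 * (f n z ^ 2 * ∏ i, Φ i (g i n z)) = _
    ring
  have i2 : Integrable (fun z => ψ z * (∏ i, Φ i (g i n z)) / z.im ^ 2) := by
    have := Pool.Agent.W311.RW.int_mul HHo (tf hψ) (sP n)
    refine this.congr (Eventually.of_forall fun z => ?_)
    show ψ z / z.im ^ 2 * (∏ i, Φ i (g i n z)) = _
    ring
  have e1 : II ψ (fun z => f n z ^ 2 * ∏ i, Φ i (g i n z)) - II ψ (fun z => ∏ i, Φ i (g i n z)) =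
      II ψ (fun z => (f n z ^ 2 - 1) * ∏ i, Φ i (g i n z)) := by
    unfold II
    rw [← integral_sub i1 i2]
    congr 1; funext z; ring
  rw [e1]
  have b1 : (2 / 3 * ex χ (f n) + η) * II χ (fun z => (∏ i, Φ i (g i n z)) ^ 2) ≤
      (ε / 4) ^ 2 := by
    have m0 : 0 ≤ II χ (fun z => (∏ i, Φ i (g i n z)) ^ 2) := by
      refine integral_nonneg fun z => ?_
      have : 0 ≤ χ z := (abs_nonneg _).trans (hψχ z)
      positivity
    have m1 : II χ (fun z => (∏ i, Φ i (g i n z)) ^ 2) ≤ |C| + 1 :=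
      (hC n).trans ((le_abs_self C).trans (by linarith))
    have m2 : 2 / 3 * ex χ (f n) + η ≤ 2 * η := by linarith
    calc (2 / 3 * ex χ (f n) + η) * II χ (fun z => (∏ i, Φ i (g i n z)) ^ 2) ≤
        (2 * η) * II χ (fun z => (∏ i, Φ i (g i n z)) ^ 2) := mul_le_mul_of_nonneg_right m2 m0
      _ ≤ (2 * η) * (|C| + 1) := mul_le_mul_of_nonneg_left m1 (by positivity)
      _ ≤ (2 * (ε ^ 2 / (32 * (|C| + 1)))) * (|C| + 1) :=
          mul_le_mul_of_nonneg_right (by linarith) (by positivity)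
      _ = (ε / 4) ^ 2 := by field_simp; norm_num
  have b2 := Real.sqrt_le_sqrt b1
  rw [Real.sqrt_sq (by positivity)] at b2
  linarith

end Pool.Agent.Results.MP_a28cf0_nt.BoundedSlowFunctions
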