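import Pool.Agent.Y139.JL.F

/-!
# Joint limit laws of several Maass forms with separated frequencies (MP_a28cf0_nt)

`f n` and `g i n`, for `i < k`, are real eigenfunctions with the eigenvalues `1/4 + t_n²` and
`1/4 + s_{i,n}²` in an open subset `Ω` of the upper half plane `HH`, locally bounded in `L²`, where
`t_n → ∞` and `s_{i,n}³ / t_n → 0`; nothing is assumed about the frequencies `s_{i,n}` among
themselves.  `ψ` is a nonnegative smooth function with compact support in `Ω`, `dμ = dx dy / y²`.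
A limit law `ν` is a measure on `ℝ × ℝ^k`: the weak limit, along a subsequence, of the joint laws of
`(f n, g n)` under `ψ dμ`.  The definitions `lapl = ∂x² + ∂y²`, `LocL2`, `Test` are those of the file
`AbsoluteContinuity` of MP_a52643_an; `TestE`, `wsl` and `slice` are in `Pool.Agent.Y139.JL`.
-/

set_option autoImplicit false
open MeasureTheory Filter Topology Complex
open scoped ContDiff ENNReal

namespace Pool.Agent.Results.MP_a28cf0_nt.JointLimitLaws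

noncomputable section

open Pool.Agent.Results.MP_a52643_an.AbsoluteContinuity (lapl LocL2 Test)
open Pool.Agent.Y139.PD (Hyp law Bey)
open Pool.Agent.Y139.JL (TestE wsl slice JLim jmain slow_tuple)

/-- the open upper half plane -/
def HH : Set ℂ := {z | 0 < z.im}

/-- `f` is a smooth real solution of `-y² (∂x² + ∂y²) f = (1/4 + t²) f` in `Ω` -/
def Eig (Ω : Set ℂ) (t : ℝ) (f : ℂ → ℝ) : Prop :=
  ContDiffOn ℝ ∞ f Ω ∧ ∀ z ∈ Ω, -(z.im ^ 2 * lapl f z) = (1 / 4 + t ^ 2) * f z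

/-- the hypotheses on the forms: `f n` of high frequency `t n`, `g i n` of low frequencies
`s i n` -/
structure Forms (Ω : Set ℂ) {k : ℕ} (t : ℕ → ℝ) (f : ℕ → ℂ → ℝ) (s : Fin k → ℕ → ℝ)
    (g : Fin k → ℕ → ℂ → ℝ) : Prop where
  op : IsOpen Ω
  sub : Ω ⊆ HH
  high : Tendsto t atTop atTop
  sep : ∀ i, Tendsto (fun n => s i n ^ 3 / t n) atTop (𝓝 0)
  ef : ∀ n, Eig Ω (t n) (f n)
  eg : ∀ i n, Eig Ω (s i n) (g i n)
  lf : LocL2 Ω f
  lg : ∀ i, LocL2 Ω (g i)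

/-- the weight `ψ θ(g_1, …, g_k)` -/
def wt {k : ℕ} (ψ : ℂ → ℝ) (θ : (Fin k → ℝ) → ℝ) (g : Fin k → ℕ → ℂ → ℝ) (n : ℕ) (z : ℂ) : ℝ :=
  ψ z * θ (fun i => g i n z)

/-- the integral `∫ w F dμ` -/
def II (w F : ℂ → ℝ) : ℝ := ∫ z, w z * F z / z.im ^ 2

/-- the mass `∫ w dμ` of the set of the points of `Ω` where `f` takes a value in `A` -/
def mass (Ω : Set ℂ) (w f : ℂ → ℝ) (A : Set ℝ) : ℝ :=
  ∫ z in {z | z ∈ Ω ∧ f z ∈ A}, w z / z.im ^ 2

/-- the values beyond `b`, seen from zero: `t ≥ b` if `b > 0`, and `t ≤ b` if `b < 0` -/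
def Beyond (b : ℝ) : Set ℝ := {t | b ∈ Set.uIcc 0 t}

/-- `ν` is the weak limit, along a subsequence, of the joint laws of `f n` and the `g i n` under
the measure `ψ dμ` -/
def IsJointLimit {k : ℕ} (ψ : ℂ → ℝ) (f : ℕ → ℂ → ℝ) (g : Fin k → ℕ → ℂ → ℝ)
    (ν : Measure (ℝ × (Fin k → ℝ))) : Prop :=
  ∃ σ : ℕ → ℕ, StrictMono σ ∧ ∀ F : ℝ × (Fin k → ℝ) → ℝ, Continuous F → (∃ M, ∀ p, |F p| ≤ M) →
    Tendsto (fun n => II ψ (fun z => F (f (σ n) z, fun i => g i (σ n) z))) atTop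
      (𝓝 (∫ p, F p ∂ν))

/-- the cubic law: a lower bound for the density of `κ` between `0` and `b` by the mass beyond
`b` -/
def Cubic (D : ℝ) (κ : Measure ℝ) : Prop :=
  ∀ (b : ℝ) (A : Set ℝ), A ⊆ Set.uIoo 0 b →
    (volume A).toReal * (|b| * (κ (Beyond b)).toReal) ^ 3 ≤ D * (κ A).toReal

/-- `κ` has mean zero, and it is concentrated at `0` or, off `0`, has the same null sets as
Lebesgue measure on an open interval containing `0` -/
def Full (κ : Measure ℝ) : Prop :=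
  (Integrable (fun x => x) κ ∧ ∫ x, x ∂κ = 0) ∧
  (κ {0}ᶜ = 0 ∨ ∃ J : Set ℝ, IsOpen J ∧ J.OrdConnected ∧ (0 : ℝ) ∈ J ∧
    κ.restrict {0}ᶜ ≪ volume.restrict J ∧ volume.restrict J ≪ κ.restrict {0}ᶜ)

/-- **Joint limit laws of Maass forms with separated frequencies.** -/
theorem result : ∃ C : ℝ, ∀ (Ω : Set ℂ) (k : ℕ) (t : ℕ → ℝ) (f : ℕ → ℂ → ℝ)
    (s : Fin k → ℕ → ℝ) (g : Fin k → ℕ → ℂ → ℝ), Forms Ω t f s g → ∀ ψ : ℂ → ℝ, Test Ω ψ →
      (∀ θ : (Fin k → ℝ) → ℝ, TestE θ →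
        Tendsto (fun n => II (wt ψ θ g n) (f n)) atTop (𝓝 0) ∧
        ∀ m : ℝ, 0 < m → (∀ᶠ n in atTop, II (wt ψ θ g n) (fun z => f n z ^ 2) ≤ m) →
          (∀ ε : ℝ, 0 < ε → ∀ᶠ n in atTop, ∀ (b : ℝ) (A : Set ℝ), MeasurableSet A →
            A ⊆ Set.uIoo 0 b → ε ≤ |b| * mass Ω (wt ψ θ g n) (f n) (Beyond b) →
            (volume A).toReal * (|b| * mass Ω (wt ψ θ g n) (f n) (Beyond b)) ^ 3 ≤
              C * m ^ 2 * mass Ω (wt ψ θ g n) (f n) A) ∧
          ∀ ν : Measure (ℝ × (Fin k → ℝ)), IsFiniteMeasure ν → IsJointLimit ψ f g ν →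
            Cubic (C * m ^ 2) (wsl ν θ)) ∧
      ∀ m : ℝ, 0 < m → (∀ᶠ n in atTop, II ψ (fun z => f n z ^ 2) ≤ m) →
        ∀ ν : Measure (ℝ × (Fin k → ℝ)), IsFiniteMeasure ν → IsJointLimit ψ f g ν →
          ∀ B : Set (Fin k → ℝ), MeasurableSet B →
            Cubic (C * m ^ 2) (slice ν B) ∧ Full (slice ν B) := by
  obtain ⟨C, hC⟩ := jmain
  refine ⟨C, fun Ω k t f s g H ψ hψ => ?_⟩
  obtain ⟨oΩ, hH, ht, hs, ef, eg, lf, lg⟩ := H
  have im0 : ∀ z ∈ Ω, (0 : ℝ) < z.im := fun z hz => hH hz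
  have sρ : ContDiffOn ℝ ∞ (fun z : ℂ => 1 / z.im ^ 2) Ω := by
    have : ContDiff ℝ ∞ (fun z : ℂ => z.im) := imCLM.contDiff
    exact contDiffOn_const.div (this.pow 2).contDiffOn fun z hz => by
      have := im0 z hz
      positivity
  have ll : Tendsto (fun n => 1 / 4 + t n ^ 2) atTop atTop :=
    tendsto_atTop_add_const_left _ _ ((tendsto_pow_atTop two_ne_zero).comp ht)
  have cv : ∀ (r : ℝ) (h : ℂ → ℝ), Eig Ω r h → ∀ z ∈ Ω,
      lapl h z + (1 / 4 + r ^ 2) * (1 / z.im ^ 2 * h z) = 0 := by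
    intro r h hr z hz
    have h1 := hr.2 z hz
    have h2 := im0 z hz
    have h4 : lapl h z = -((1 / 4 + r ^ 2) * h z) / z.im ^ 2 := by
      rw [eq_div_iff (by positivity)]
      linarith
    rw [h4]
    field_simp
    ring
  have HP : Hyp Ω (fun z : ℂ => 1 / z.im ^ 2) (fun n => 1 / 4 + t n ^ 2) f :=
    ⟨oΩ, sρ, fun z hz => by
      have := im0 z hz
      positivity, ll, fun n => (ef n).1, fun n z hz => cv _ _ (ef n) z hz, lf⟩
  have hμ : ∀ i, Tendsto (fun n => (1 / 4 + s i n ^ 2) ^ 3 / (1 / 4 + t n ^ 2)) atTop (𝓝 0) := by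
    intro i
    have l1 : Tendsto (fun n => 4 * ((t n ^ 2)⁻¹ + (s i n ^ 3 / t n) ^ 2)) atTop (𝓝 0) := by
      have h1 := tendsto_inv_atTop_zero.comp ((tendsto_pow_atTop (α := ℝ) two_ne_zero).comp ht)
      have h2 := ((h1.add ((hs i).pow 2)).const_mul 4)
      simpa using h2
    refine squeeze_zero' (Eventually.of_forall fun n => by positivity) ?_ l1
    filter_upwards [ht.eventually_gt_atTop 0] with n tn
    rw [div_le_iff₀ (by positivity)]
    have e1 : 4 * ((t n ^ 2)⁻¹ + (s i n ^ 3 / t n) ^ 2) * (1 / 4 + t n ^ 2) =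
        4 * (1 + s i n ^ 6) + (t n ^ 2)⁻¹ + (s i n ^ 3 / t n) ^ 2 := by
      field_simp
      ring
    rw [e1]
    have p1 : 0 ≤ (t n ^ 2)⁻¹ := by positivity
    have p2 : 0 ≤ (s i n ^ 3 / t n) ^ 2 := sq_nonneg _
    have p3 : (1 / 4 + s i n ^ 2) ^ 3 ≤ 4 * (1 + s i n ^ 6) := by
      obtain ⟨a, ha⟩ : ∃ a : ℝ, a = s i n ^ 2 := ⟨_, rfl⟩
      have a0 : 0 ≤ a := by rw [ha]; positivity
      have e2 : s i n ^ 6 = a ^ 3 := by rw [ha]; ring
      rw [e2, ← ha]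
      nlinarith [mul_nonneg a0 (sq_nonneg (a - 1 / 4)), mul_nonneg a0 a0, pow_nonneg a0 3,
        mul_nonneg (by linarith : (0 : ℝ) ≤ a + 1 / 4) (sq_nonneg (a - 1 / 4))]
    linarith
  have hG : Pool.Agent.Y139.JL.Slow Ω (fun n => 1 / 4 + t n ^ 2) (fun n z i => g i n z) :=
    slow_tuple oΩ sρ ll (μ := fun i n => 1 / 4 + s i n ^ 2) (fun i n => by positivity) hμ
      (fun i n => (eg i n).1) (fun i n z hz => cv _ _ (eg i n) z hz) lg
  have sG : ∀ n, ContDiffOn ℝ ∞ (fun z i => g i n z) Ω := fun n =>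
    contDiffOn_pi.2 fun i => (eg i n).1
  obtain ⟨h1, h2⟩ := hC Ω (fun z : ℂ => 1 / z.im ^ 2) (fun n => 1 / 4 + t n ^ 2) f k
    (fun n z i => g i n z) ψ HP sG hG hψ
  have jl : ∀ ν : Measure (ℝ × (Fin k → ℝ)), IsJointLimit ψ f g ν →
      JLim ψ (fun z : ℂ => 1 / z.im ^ 2) f (fun n z i => g i n z) ν := by
    rintro ν ⟨σ, hσ, hF⟩
    refine ⟨σ, hσ, fun F cF bF => (hF F cF bF).congr fun n => ?_⟩
    unfold II
    congr 1
    funext z
    ring
  have el : ∀ (w h : ℂ → ℝ) (A : Set ℝ), law Ω w (fun z : ℂ => 1 / z.im ^ 2) h A =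
      mass Ω w h A := by
    intro w h A
    unfold law mass
    simp only [mul_one_div]
  refine ⟨fun θ hθ => ?_, fun m m0 hm ν hν hl B mB => ?_⟩
  · obtain ⟨a1, a2⟩ := h1 θ hθ
    refine ⟨a1.congr fun n => ?_, fun m m0 hm => ?_⟩
    · unfold II wt
      congr 1
      funext z
      ring
    · obtain ⟨b1, b2⟩ := a2 m m0 (hm.mono fun n hn => by
        refine le_trans (le_of_eq ?_) hn
        unfold II wt
        congr 1
        funext z
        ring)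
      simp only [el] at b1
      exact ⟨b1, fun ν hν hl => b2 ν hν (jl ν hl)⟩
  · obtain ⟨a1, a2, a3⟩ := h2 m m0 (hm.mono fun n hn => by
      refine le_trans (le_of_eq ?_) hn
      unfold II
      congr 1
      funext z
      ring) ν hν (jl ν hl) B mB
    exact ⟨a2, a1, a3⟩

end

end Pool.Agent.Results.MP_a28cf0_nt.JointLimitLaws
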