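import Pool.Agent.Y265.HY.JC6

/-!
# Joint cubic moments `∫ ψ f² g dμ` of eigenfunctions, with error `o(1)` (MP_a28cf0_nt)

The plane is `ℂ`, with the upper half plane `HH` and `dμ = dx dy / y²`. `dx f z`, `dy f z` are the
partial derivatives `fderiv ℝ f z 1`, `fderiv ℝ f z I`; `TF U φ` says that `φ : ℂ → ℝ` is smooth
with compact support contained in `U`.

The main consequence: if the ratio of the eigenvalues of `g` and of `f` stays away from `0` and
from `4`, then `∫ ψ f² g dμ → 0` for every test function `ψ`, with no assumption on the fourth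
moments of `f`. For Hecke-Maass cusp forms the hypothesis `QUE` on `f` is a theorem (Lindenstrauss,
Soundararajan), and the hypothesis on `g` holds by the normalisation, so this is the conjecture for
`I = 2`, `(a_1, a_2) = (2, 1)` in this range of spectral parameters.

Proof. For every polynomial `F`, `F(L) f²` (`L` the normalised Laplacian) has a mean square which is
known up to `o(1)` in terms of the fourth moment of `f` (`Pool.Agent.Y265.HY.PS2`), and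
`λ^{-1/2} |f|² → 0` locally uniformly, so that `F(r) ∫ ψ f² g = ∫ ψ (F(L) f²) g + o(1)`, `r` the
ratio of the eigenvalues. Then `F` is chosen with `F(r) = 1` and small mean square on the spectrum
of the Gaussian field (and `F = 0` at the exceptional frequencies `0` and `4`).
-/

set_option autoImplicit false
open MeasureTheory Filter Topology Complex
open scoped ContDiff

namespace Pool.Agent.Results.MP_a28cf0_nt.SharpJointCubicMoments

open Pool.Agent.W745.RW (TF dx dy lap)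

/-- the open upper half plane -/
def HH : Set ℂ := {z | 0 < z.im}

/-- the eigenvalue `1/4 + t²` -/
noncomputable def ev (t : ℝ) : ℝ := 1 / 4 + t ^ 2

/-- `f` is a smooth real solution of `-y² (∂x² + ∂y²) f = (1/4 + t²) f` on the upper half plane -/
def Eig (t : ℝ) (f : ℂ → ℝ) : Prop :=
  ContDiffOn ℝ ∞ f HH ∧ ∀ z ∈ HH, -(z.im ^ 2 * (dx (dx f) z + dy (dy f) z)) = ev t * f z

/-- the operator `f ↦ lam^{-1/2} y (∂x f - i ∂y f)` -/
noncomputable def RO (lam : ℝ) (f : ℂ → ℂ) (z : ℂ) : ℂ :=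
  ((z.im / √lam : ℝ) : ℂ) * (dx f z - I * dy f z)

/-- quantum unique ergodicity in microlocal form: `∫ φ f (RO^k f) dμ → ∫ φ dμ` for `k = 0`, and
`→ 0` for `k ≥ 1` -/
def QUE (t : ℕ → ℝ) (f : ℕ → ℂ → ℝ) : Prop :=
  ∀ φ, TF HH φ → ∀ k : ℕ, Tendsto (fun n => ∫ z, ((φ z / z.im ^ 2 : ℝ) : ℂ) *
    ((f n z : ℂ) * (RO (ev (t n)))^[k] (fun w => (f n w : ℂ)) z)) atTop
    (𝓝 (if k = 0 then ((∫ z, φ z / z.im ^ 2 : ℝ) : ℂ) else 0))

/-- the joint cubic moment `∫ ψ f² g dμ` -/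
noncomputable def J (ψ f g : ℂ → ℝ) : ℝ := ∫ z, ψ z * (f z ^ 2 * g z) / z.im ^ 2

/-- the excess `∫ ψ f⁴ dμ - 3 ∫ ψ dμ` of the fourth moment -/
noncomputable def ex (ψ f : ℂ → ℝ) : ℝ :=
  (∫ z, ψ z * f z ^ 4 / z.im ^ 2) - 3 * ∫ z, ψ z / z.im ^ 2

/-- the ratio `ev (s n) / ev (t n)` of the eigenvalues stays away from `0` -/
def Away0 (t s : ℕ → ℝ) : Prop := ∃ δ : ℝ, 0 < δ ∧ ∀ᶠ n in atTop, δ * ev (t n) ≤ ev (s n)

/-- the ratio `ev (s n) / ev (t n)` of the eigenvalues stays away from `0` and from `4` -/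
def Away04 (t s : ℕ → ℝ) : Prop := ∃ δ : ℝ, 0 < δ ∧ ∀ᶠ n in atTop, δ * ev (t n) ≤ ev (s n) ∧
  δ * ev (t n) ≤ |ev (s n) - 4 * ev (t n)|

lemma ev_pos (t : ℝ) : 0 < ev t := by unfold ev; positivity

lemma HHo : IsOpen HH := isOpen_lt continuous_const continuous_im

lemma ev_lim {t : ℕ → ℝ} (ht : Tendsto t atTop atTop) :
    Tendsto (fun n => ev (t n)) atTop atTop :=
  tendsto_atTop_add_const_left _ _ ((tendsto_pow_atTop two_ne_zero).comp ht)

lemma cmp_bd {K : Set ℂ} (hK : IsCompact K) (hKH : K ⊆ HH) : ∃ C : ℝ, 0 < C ∧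
    ∀ F : ℂ → ℝ, ContinuousOn F K → (∀ z, 0 ≤ F z) →
      ∫ z in K, F z ≤ C * ∫ z in K, F z / z.im ^ 2 := by
  have him : ContDiff ℝ ∞ (fun z : ℂ => z.im) := imCLM.contDiff
  obtain ⟨C, hC⟩ := hK.exists_bound_of_continuousOn
    ((him.continuous.pow 2).continuousOn (s := K))
  refine ⟨|C| + 1, by positivity, fun F hF hF0 => ?_⟩
  have i1 : IntegrableOn F K := hF.integrableOn_compact hK
  have i2 : IntegrableOn (fun z => (|C| + 1) * (F z / z.im ^ 2)) K := by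
    refine ContinuousOn.integrableOn_compact hK ?_
    refine continuousOn_const.mul (hF.div (him.continuous.pow 2).continuousOn fun z hz => ?_)
    have : 0 < z.im := hKH hz
    positivity
  rw [← integral_const_mul]
  refine setIntegral_mono_on i1 i2 hK.measurableSet fun z hz => ?_
  have h3 : 0 < z.im := hKH hz
  have h4 : z.im ^ 2 ≤ |C| + 1 := by
    have h7 : ‖z.im ^ 2‖ ≤ C := hC z hz
    rw [Real.norm_eq_abs, abs_of_nonneg (pow_nonneg h3.le 2)] at h7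
    linarith [le_abs_self C]
  rw [mul_div_assoc', le_div_iff₀ (pow_pos h3 2), mul_comm]
  exact mul_le_mul_of_nonneg_right h4 (hF0 z)

lemma data {t s : ℕ → ℝ} (ht : Tendsto t atTop atTop) (hs : Tendsto s atTop atTop)
    {f g : ℕ → ℂ → ℝ} (hf : ∀ n, Eig (t n) (f n)) (hg : ∀ n, Eig (s n) (g n))
    (hqe : QUE t f)
    (hgb : ∀ K' : Set ℂ, IsCompact K' → K' ⊆ HH →
      ∃ C : ℝ, ∀ᶠ n in atTop, ∫ z in K', g n z ^ 2 / z.im ^ 2 ≤ C) :
    Pool.Agent.Y265.HY.JC.JD HH (fun n => ev (t n)) (fun n => ev (s n)) f g where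
  op := HHo
  hU := fun z hz => hz
  lp := fun n => ev_pos _
  ll := ev_lim ht
  mp := fun n => ev_pos _
  ml := ev_lim hs
  us := fun n => (hf n).1
  gs := fun n => (hg n).1
  ue := fun n z hz => by
    have h1 := (hf n).2 z hz
    have h2 : lap (f n) z = dx (dx (f n)) z + dy (dy (f n)) z := rfl
    rw [h2]; linarith
  ge := fun n z hz => by
    have h1 := (hg n).2 z hz
    have h2 : lap (g n) z = dx (dx (g n)) z + dy (dy (g n)) z := rfl
    rw [h2]; linarith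
  gb := fun K hK hKH => by
    obtain ⟨C, hC⟩ := hgb K hK hKH
    obtain ⟨C', hC'0, hC'⟩ := cmp_bd hK hKH
    refine ⟨C' * C, hC.mono fun n hn => ?_⟩
    exact (hC' (fun z => g n z ^ 2) (((hg n).1.continuousOn.mono hKH).pow 2)
      (fun z => by positivity)).trans (mul_le_mul_of_nonneg_left hn hC'0.le)
  qe := hqe

lemma tf {ψ : ℂ → ℝ} (hψ : TF HH ψ) : TF HH (fun z => ψ z / z.im ^ 2) := by
  have sy : ContDiffOn ℝ ∞ (fun z : ℂ => (z.im ^ 2)⁻¹) HH := by
    refine ContDiffOn.inv ((imCLM.contDiff.pow 2).contDiffOn) fun z hz => ?_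
    have : 0 < z.im := hz
    exact pow_ne_zero 2 this.ne'
  exact Pool.Agent.TH294.RS.TF.mulc HHo hψ sy

lemma J_eq (ψ f g : ℂ → ℝ) : J ψ f g = Pool.Agent.Y265.HY.JC.JJ3 (fun z => ψ z / z.im ^ 2) f g := by
  unfold J Pool.Agent.Y265.HY.JC.JJ3
  congr 1; funext z; ring

lemma ex_eq (ψ f : ℂ → ℝ) : ex ψ f = Pool.Agent.Y265.HY.JC.eX (fun z => ψ z / z.im ^ 2) f := by
  unfold ex Pool.Agent.Y265.HY.JC.eX
  congr 2; funext z; ring

lemma m_eq (ψ g : ℂ → ℝ) : ∫ z, ψ z * g z ^ 2 / z.im ^ 2 =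
    Pool.Agent.Y265.HY.JC.mS (fun z => ψ z / z.im ^ 2) g := by
  unfold Pool.Agent.Y265.HY.JC.mS
  congr 1; funext z; ring

lemma off {t s : ℕ → ℝ} (h : Away04 t s) : ∃ δ : ℝ, 0 < δ ∧ ∀ᶠ n in atTop,
    δ ≤ ev (s n) / ev (t n) ∧ δ ≤ |ev (s n) / ev (t n) - 4| := by
  obtain ⟨δ, hδ, h⟩ := h
  refine ⟨δ, hδ, h.mono fun n hn => ?_⟩
  have h1 := ev_pos (t n)
  have e : ev (s n) / ev (t n) - 4 = (ev (s n) - 4 * ev (t n)) / ev (t n) := by
    field_simp
  refine ⟨?_, ?_⟩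
  · rw [le_div_iff₀ h1]; exact hn.1
  · rw [e, abs_div, abs_of_pos h1, le_div_iff₀ h1]; exact hn.2

/-- **Result.** Let `f n`, `g n` be real eigenfunctions of the hyperbolic Laplacian on the upper
half plane, with spectral parameters `t n → ∞` and `s n → ∞`; the `f n` satisfy microlocal quantum
unique ergodicity, and the `g n` are bounded in `L²(K', dμ)` for every compact `K'`.

1. If the ratio of the eigenvalues of `g n` and `f n` stays away from `0` and from `4`, then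
`∫ ψ f² g dμ → 0` for every test function `ψ`.
2. For all test functions `ψ ≥ 0` and all `ε > 0`, eventually
`(∫ ψ f² g dμ)² ≤ (1 + ε) (2/3) (∫ ψ f⁴ dμ - 3 ∫ ψ dμ) (∫ ψ g² dμ) + ε`.
3. If the ratio of the eigenvalues stays away from `0`, this holds with `1/3` in place of `2/3`. -/
theorem result (t s : ℕ → ℝ) (ht : Tendsto t atTop atTop) (hs : Tendsto s atTop atTop)
    (f g : ℕ → ℂ → ℝ) (hf : ∀ n, Eig (t n) (f n)) (hg : ∀ n, Eig (s n) (g n))
    (hqe : QUE t f)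
    (hgb : ∀ K' : Set ℂ, IsCompact K' → K' ⊆ HH →
      ∃ C : ℝ, ∀ᶠ n in atTop, ∫ z in K', g n z ^ 2 / z.im ^ 2 ≤ C) :
    (Away04 t s → ∀ ψ, TF HH ψ → Tendsto (fun n => J ψ (f n) (g n)) atTop (𝓝 0)) ∧
    (∀ ψ, TF HH ψ → (∀ z, 0 ≤ ψ z) → ∀ ε : ℝ, 0 < ε → ∀ᶠ n in atTop, J ψ (f n) (g n) ^ 2 ≤
      (1 + ε) * (2 / 3) * ex ψ (f n) * (∫ z, ψ z * g n z ^ 2 / z.im ^ 2) + ε) ∧
    (Away0 t s → ∀ ψ, TF HH ψ → (∀ z, 0 ≤ ψ z) → ∀ ε : ℝ, 0 < ε → ∀ᶠ n in atTop,
      J ψ (f n) (g n) ^ 2 ≤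
      (1 + ε) * (1 / 3) * ex ψ (f n) * (∫ z, ψ z * g n z ^ 2 / z.im ^ 2) + ε) := by
  have D := data ht hs hf hg hqe hgb
  refine ⟨fun h ψ hψ => ?_, fun ψ hψ hψ0 ε hε => ?_, fun h ψ hψ hψ0 ε hε => ?_⟩
  · obtain ⟨δ, hδ, h1⟩ := off h
    simp only [J_eq]
    exact D.off (tf hψ) hδ h1
  · have k := D.all (tf hψ) (fun z => div_nonneg (hψ0 z) (sq_nonneg _)) (Or.inl rfl) hε
    simp only [J_eq, ex_eq, m_eq]
    exact k
  · obtain ⟨δ, hδ, h1⟩ := h
    have k := D.all (tf hψ) (fun z => div_nonneg (hψ0 z) (sq_nonneg _)) (c := 1 / 3)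
      (Or.inr (Or.inl ⟨rfl, δ, hδ, h1.mono fun n hn => by
        rw [le_div_iff₀ (ev_pos _)]; exact hn⟩)) hε
    simp only [J_eq, ex_eq, m_eq]
    exact k

end Pool.Agent.Results.MP_a28cf0_nt.SharpJointCubicMoments
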